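import Mathlib
import Pool.Agent.H87.AQ.Targets

/-!
# Module N6: a unit and an entry of valuation one
-/

namespace AMq

open AMx

namespace N6aux

lemma val_of_modEq {q : ℕ} (hq : q.Prime) {a x E : ℕ} (h : a ≡ x [MOD q ^ E]) (hx : x ≠ 0)
    (ha : a ≠ 0) (hE : padicValNat q x < E) : padicValNat q a = padicValNat q x := by
  have : Fact q.Prime := ⟨hq⟩
  have h1 : q ^ padicValNat q x ∣ a :=
    (h.dvd_iff (pow_dvd_pow q hE.le)).mpr pow_padicValNat_dvd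
  have h2 : padicValNat q x ≤ padicValNat q a := (padicValNat_dvd_iff_le ha).mp h1
  by_contra hne
  have h3 : padicValNat q x + 1 ≤ padicValNat q a := by omega
  have h4 : q ^ (padicValNat q x + 1) ∣ a := (padicValNat_dvd_iff_le ha).mpr h3
  have h5 : q ^ (padicValNat q x + 1) ∣ x := (h.dvd_iff (pow_dvd_pow q hE)).mp h4
  have h6 := (padicValNat_dvd_iff_le hx).mp h5
  omega

section

variable (h1 : T_N1) (h3 : T_N3) (h5 : T_N5) {ℓ : ℕ} (hℓ : ℓ.Prime) {V : ℕ → ℕ → Prop}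
  (hV : VC ℓ V) {q : ℕ} (hq : q.Prime) (hqℓ : q ≠ ℓ) {M : ℕ} (hM : 0 < M) (hMq : M.Coprime q)

include h1 h3 hℓ hV hq hqℓ hM hMq

/-- step A, iterated -/
lemma stepA (m : ℕ) : ∀ a b, Vp V M a b → m ≤ padicValNat q a → m ≤ padicValNat q b →
    ∃ a' b', Vp V M a' b' ∧ padicValNat q a' = padicValNat q a - m ∧
      padicValNat q b' = padicValNat q b - m := by
  have : Fact q.Prime := ⟨hq⟩
  obtain ⟨-, -, -, -, p5, p6, p7, -, -⟩ := h1 q hq
  induction m with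
  | zero => intro a b hab _ _; exact ⟨a, b, hab, rfl, rfl⟩
  | succ m ih =>
    intro a b hab ha hb
    obtain ⟨a₁, b₁, hV1, ha1, hb1⟩ := ih a b hab (by omega) (by omega)
    obtain ⟨a₂, b₂, hV2, ha2, hb2⟩ := (h3 ℓ hℓ V hV q hq hqℓ M hM hMq a₁ b₁ hV1 1
      (padicValNat q a₁ + padicValNat q b₁)).2
    rw [one_mul] at ha2 hb2
    have ga : 0 < a₁ := hV1.2.2.1
    have gb : 0 < b₁ := hV1.2.2.2.1
    have da : q ∣ a₁ := dvd_of_one_le_padicValNat (by omega)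
    have db : q ∣ b₁ := dvd_of_one_le_padicValNat (by omega)
    have va := p7 a₁ ga da
    have vb := p7 b₁ gb db
    have ta := p6 0 a₁ ga
    have tb := p6 0 b₁ gb
    have e1 := val_of_modEq hq ha2 (by omega) (by have := hV2.2.2.1; omega) (by omega)
    have e2 := val_of_modEq hq hb2 (by omega) (by have := hV2.2.2.2.1; omega) (by omega)
    exact ⟨a₂, b₂, hV2, by omega, by omega⟩

/-- step C, iterated -/
lemma stepC (n : ℕ) : ∀ a b, Vp V M a b → ¬ q ∣ a → padicValNat q b = n + 1 →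
    ∃ a' b', Vp V M a' b' ∧ ¬ q ∣ a' ∧ padicValNat q b' = 1 := by
  have : Fact q.Prime := ⟨hq⟩
  obtain ⟨-, p2, -, -, p5, p6, p7, -, p9⟩ := h1 q hq
  induction n with
  | zero => intro a b hab ha hb; exact ⟨a, b, hab, ha, hb⟩
  | succ n ih =>
    intro a b hab ha hb
    obtain ⟨u, hu1, hu2⟩ := p9 1 1 1
    rw [pow_one] at hu2
    have hqu : ¬ q ∣ u := by
      intro h
      have h' : u ≡ 0 [MOD q] := (Nat.modEq_zero_iff_dvd).mpr h
      have h3 : q ∣ 1 := (Nat.modEq_zero_iff_dvd).mp (h'.symm.trans hu1).symm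
      exact hq.one_lt.ne' (Nat.dvd_one.mp h3)
    set n' := q * q with hn'
    have hn0 : n' ≠ 0 := Nat.mul_ne_zero hq.ne_zero hq.ne_zero
    have : NeZero n' := ⟨hn0⟩
    have hcop : a.Coprime n' := by
      have := (Nat.coprime_comm.mp ((Nat.Prime.coprime_iff_not_dvd hq).mpr ha))
      exact Nat.Coprime.mul_right this this
    set c : ℕ := ((u : ZMod n') * (a : ZMod n')⁻¹).val with hc
    have hca : c * a ≡ u [MOD q * q] := by
      rw [← hn', ← ZMod.natCast_eq_natCast_iff, Nat.cast_mul, hc, ZMod.natCast_zmod_val,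
        mul_assoc, mul_comm ((a : ZMod n')⁻¹), ZMod.coe_mul_inv_eq_one a hcop, mul_one]
    have hqc : ¬ q ∣ c := by
      intro h
      apply hqu
      have h2 : c * a ≡ u [MOD q] := hca.of_dvd (dvd_mul_right q q)
      exact (h2.dvd_iff (dvd_refl q)).mp (Dvd.dvd.mul_right h a)
    have hc0 : c ≠ 0 := by
      rintro h
      apply hqc
      rw [h]
      exact dvd_zero q
    have hb0 : b ≠ 0 := by have := hab.2.2.2.1; omega
    obtain ⟨a₂, b₂, hV2, ha2, hb2⟩ := (h3 ℓ hℓ V hV q hq hqℓ M hM hMq a b hab c (n + 3)).2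
    have hqb : q ∣ b := dvd_of_one_le_padicValNat (by omega)
    have hcb0 : 0 < c * b := Nat.mul_pos (Nat.pos_of_ne_zero hc0) (Nat.pos_of_ne_zero hb0)
    have vb := p7 (c * b) hcb0 (Dvd.dvd.mul_left hqb c)
    rw [padicValNat.mul hc0 hb0, padicValNat.eq_zero_of_not_dvd hqc, hb] at vb
    have tb := p6 0 (c * b) hcb0
    have e2 := val_of_modEq hq hb2 (by omega) (by have := hV2.2.2.2.1; omega) (by omega)
    refine ih a₂ b₂ hV2 ?_ (by omega)
    intro h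
    have h3 : a₂ ≡ th q (c * a) [MOD q] := ha2.of_dvd (dvd_pow_self q (by omega))
    have h4 : th q (c * a) ≡ 1 [MOD q] := (p2 q _ _ hca).trans hu2
    have h5 := ((h3.trans h4).dvd_iff (dvd_refl q)).mp h
    exact hq.one_lt.ne' (Nat.dvd_one.mp h5)

/-- different valuations -/
lemma stepD (a b : ℕ) (hab : Vp V M a b) (hlt : padicValNat q a < padicValNat q b) :
    ∃ a' b', Vp V M a' b' ∧ ¬ q ∣ a' ∧ padicValNat q b' = 1 := by
  have : Fact q.Prime := ⟨hq⟩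
  obtain ⟨a₁, b₁, hV1, ha1, hb1⟩ := stepA h1 h3 hℓ hV hq hqℓ hM hMq (padicValNat q a) a b hab
    le_rfl hlt.le
  have ga : a₁ ≠ 0 := by have := hV1.2.2.1; omega
  refine stepC h1 h3 hℓ hV hq hqℓ hM hMq (padicValNat q b - padicValNat q a - 1) a₁ b₁ hV1 ?_
    (by omega)
  intro h
  have := one_le_padicValNat_of_dvd ga h
  omega

include h5

/-- step B -/
lemma stepB (a b : ℕ) (hab : Vp V M a b) (ha : ¬ q ∣ a) (hb : ¬ q ∣ b) :
    ∃ a' b', Vp V M a' b' ∧ padicValNat q a' < padicValNat q b' := by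
  have : Fact q.Prime := ⟨hq⟩
  obtain ⟨p1, -, -, -, p5, p6, p7, -, -⟩ := h1 q hq
  have hq2 := hq.two_le
  set d : ℤ := (a : ℤ) ^ (q - 1) - (b : ℤ) ^ (q - 1) with hd
  have hd0 : d ≠ 0 := by
    rw [hd, sub_ne_zero]
    intro h
    apply hab.2.1
    have h' : a ^ (q - 1) = b ^ (q - 1) := by exact_mod_cast h
    exact (Nat.pow_left_injective (n := q - 1) (by omega)) h'
  obtain ⟨E, hE⟩ : ∃ E : ℕ, ¬ ((q : ℤ) ^ (E + 1)) ∣ d := by
    refine ⟨d.natAbs, fun h => ?_⟩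
    have h2 := Int.natAbs_dvd_natAbs.mpr h
    rw [Int.natAbs_pow, Int.natAbs_natCast] at h2
    have h3 := Nat.le_of_dvd (Int.natAbs_pos.mpr hd0) h2
    have h4 : d.natAbs + 1 < q ^ (d.natAbs + 1) := Nat.lt_pow_self hq.one_lt
    omega
  set n := q ^ (E + 1) with hn
  have hn0 : n ≠ 0 := by positivity
  have : NeZero n := ⟨hn0⟩
  have hcopb : b.Coprime n :=
    Nat.Coprime.pow_right _ ((Nat.coprime_comm.mp ((Nat.Prime.coprime_iff_not_dvd hq).mpr hb)))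
  have hdq : q ∣ n := by
    rw [hn]
    exact dvd_pow_self q (by omega)
  -- the element `C = 1 - q ^ 2`
  set C : ZMod n := 1 - (q : ZMod n) ^ 2 with hC
  have hC1 : C.val ≡ 1 [MOD q] := by
    rw [← ZMod.natCast_eq_natCast_iff]
    have e : ((C.val : ℕ) : ZMod q) = ZMod.castHom hdq (ZMod q) ((C.val : ℕ) : ZMod n) :=
      (map_natCast _ _).symm
    rw [e, ZMod.natCast_zmod_val, hC, map_sub, map_one, map_pow, map_natCast, ZMod.natCast_self]
    simp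
  obtain ⟨c₀, hc₀, hqc₀, hc₀C⟩ := h5 q hq C.val hC1 (E + 1)
  rw [← hn, ← ZMod.natCast_eq_natCast_iff, ZMod.natCast_zmod_val, Nat.cast_pow] at hc₀C
  set c : ℕ := ((c₀ : ZMod n) * (b : ZMod n)⁻¹).val with hc
  have hcR : (c : ZMod n) = (c₀ : ZMod n) * (b : ZMod n)⁻¹ := by
    rw [hc, ZMod.natCast_zmod_val]
  have hbb : (b : ZMod n) * (b : ZMod n)⁻¹ = 1 := ZMod.coe_mul_inv_eq_one b hcopb
  have hcb : (c : ZMod n) * (b : ZMod n) = c₀ := by
    rw [hcR, mul_assoc, mul_comm ((b : ZMod n)⁻¹), hbb, mul_one]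
  have hqc : ¬ q ∣ c := by
    intro h
    apply hqc₀
    have h1 : (c * b : ℕ) ≡ c₀ [MOD n] := by
      rw [← ZMod.natCast_eq_natCast_iff, Nat.cast_mul, hcb]
    have h2 := h1.of_dvd hdq
    exact (h2.dvd_iff (dvd_refl q)).mp (Dvd.dvd.mul_right h b)
  have hth : ∀ x : ℕ, (q : ZMod n) * ((th q x : ℕ) : ZMod n)
      = (x : ZMod n) ^ q + ((q : ZMod n) ^ 2 - 1) * x := by
    intro x
    have h := congrArg (fun y : ℕ => (y : ZMod n)) (p1 x)
    simp only [Nat.cast_mul, Nat.cast_add, Nat.cast_pow] at h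
    rw [h, Nat.cast_sub (by nlinarith), Nat.cast_pow, Nat.cast_one]
  -- the second entry
  have hb' : q ^ E ∣ th q (c * b) := by
    have h : q * th q (c * b) ≡ q * 0 [MOD q * q ^ E] := by
      have e1 : q * q ^ E = n := by
        rw [hn]; ring
      rw [e1, ← ZMod.natCast_eq_natCast_iff, Nat.cast_mul, hth, Nat.cast_mul, hcb]
      have e2 : (c₀ : ZMod n) ^ q = c₀ * C := by
        rw [← hc₀C, ← pow_succ', Nat.sub_add_cancel (by omega)]
      rw [e2, hC, mul_zero, Nat.cast_zero]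
      ring
    exact (Nat.modEq_zero_iff_dvd).mp (Nat.ModEq.mul_left_cancel' hq.ne_zero h)
  -- the first entry
  have ha' : ¬ q ^ E ∣ th q (c * a) := by
    intro h
    apply hE
    have h2 : ((q : ZMod n) * ((th q (c * a) : ℕ) : ZMod n)) = 0 := by
      rw [← Nat.cast_mul, ZMod.natCast_eq_zero_iff, hn, pow_succ']
      exact Nat.mul_dvd_mul_left q h
    rw [hth, Nat.cast_mul] at h2
    have e2 : ((c : ZMod n) * a) ^ q = (c * a) * (c * a) ^ (q - 1) := by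
      rw [← pow_succ', Nat.sub_add_cancel (by omega)]
    have e3 : (c : ZMod n) ^ (q - 1) * (b : ZMod n) ^ (q - 1) = C := by
      rw [← mul_pow, hcb, hc₀C]
    have h3 : ((c : ZMod n) * a) * (1 - (q : ZMod n) ^ 2)
        * ((a : ZMod n) ^ (q - 1) - (b : ZMod n) ^ (q - 1)) = 0 := by
      have h4 : (b : ZMod n) ^ (q - 1) * (((c : ZMod n) * a) ^ q
          + ((q : ZMod n) ^ 2 - 1) * (c * a)) = 0 := by rw [h2, mul_zero]
      rw [e2, mul_pow] at h4
      rw [hC] at e3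
      linear_combination h4 - ((c : ZMod n) * a) * (a : ZMod n) ^ (q - 1) * e3
    have h5 : (((c * a : ℕ) * (1 - (q : ℤ) ^ 2) * d : ℤ) : ZMod n) = 0 := by
      rw [hd]
      push_cast
      exact h3
    rw [ZMod.intCast_zmod_eq_zero_iff_dvd] at h5
    have hcop : IsCoprime ((n : ℕ) : ℤ) ((c * a : ℕ) * (1 - (q : ℤ) ^ 2)) := by
      rw [hn, Nat.cast_pow]
      apply IsCoprime.pow_left
      apply IsCoprime.mul_right
      · rw [Nat.isCoprime_iff_coprime]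
        rw [Nat.Prime.coprime_iff_not_dvd hq, hq.dvd_mul]
        tauto
      · exact ⟨q, 1, by ring⟩
    have h6 := hcop.dvd_of_dvd_mul_left h5
    rw [hn, Nat.cast_pow] at h6
    exact h6
  obtain ⟨a₂, b₂, hV2, ha2, hb2⟩ := (h3 ℓ hℓ V hV q hq hqℓ M hM hMq a b hab c E).2
  refine ⟨a₂, b₂, hV2, ?_⟩
  have ga : a₂ ≠ 0 := by have := hV2.2.2.1; omega
  have gb : b₂ ≠ 0 := by have := hV2.2.2.2.1; omega
  have k1 : ¬ q ^ E ∣ a₂ := fun h => ha' ((ha2.dvd_iff (dvd_refl _)).mp h)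
  have k2 : q ^ E ∣ b₂ := (hb2.dvd_iff (dvd_refl _)).mpr hb'
  rw [padicValNat_dvd_iff_le ga] at k1
  rw [padicValNat_dvd_iff_le gb] at k2
  omega

end

lemma VC_swap {ℓ : ℕ} {V : ℕ → ℕ → Prop} (hV : VC ℓ V) : VC ℓ (fun x y => V y x) :=
  ⟨fun a b c d h1 h2 => hV.mul b a d c h1 h2, fun a b c h => hV.sc b a c h,
    fun q hq hql a b h => hV.th q hq hql b a h⟩

lemma Vp_swap {V : ℕ → ℕ → Prop} {M a b : ℕ} (h : Vp V M a b) : Vp (fun x y => V y x) M b a :=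
  ⟨h.1, h.2.1.symm, h.2.2.2.1, h.2.2.1, h.2.2.2.2.2, h.2.2.2.2.1⟩

lemma Vp_swap' {V : ℕ → ℕ → Prop} {M a b : ℕ} (h : Vp (fun x y => V y x) M a b) : Vp V M b a :=
  ⟨h.1, h.2.1.symm, h.2.2.2.1, h.2.2.1, h.2.2.2.2.2, h.2.2.2.2.1⟩

end N6aux

open N6aux in
theorem n6 (h1 : T_N1) (h3 : T_N3) (h5 : T_N5) : T_N6 := by
  intro ℓ hℓ V hV q hq hqℓ M hM hMq hex
  obtain ⟨a, b, hab⟩ := hex
  have : Fact q.Prime := ⟨hq⟩
  have key : ∀ a b, Vp V M a b → padicValNat q a ≠ padicValNat q b →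
      ∃ a b, Vp V M a b ∧ ((padicValNat q a = 1 ∧ ¬ q ∣ b) ∨ (padicValNat q b = 1 ∧ ¬ q ∣ a)) := by
    intro a b hab hne
    rcases Nat.lt_or_gt_of_ne hne with h | h
    · obtain ⟨a', b', h', ha', hb'⟩ := stepD h1 h3 hℓ hV hq hqℓ hM hMq a b hab h
      exact ⟨a', b', h', Or.inr ⟨hb', ha'⟩⟩
    · obtain ⟨a', b', h', ha', hb'⟩ := stepD h1 h3 hℓ (VC_swap hV) hq hqℓ hM hMq b a
        (Vp_swap hab) h
      exact ⟨b', a', Vp_swap' h', Or.inl ⟨hb', ha'⟩⟩
  by_cases hv : padicValNat q a = padicValNat q b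
  · obtain ⟨a₁, b₁, hV1, ha1, hb1⟩ := stepA h1 h3 hℓ hV hq hqℓ hM hMq (padicValNat q a) a b hab
      le_rfl hv.le
    have ga : a₁ ≠ 0 := by have := hV1.2.2.1; omega
    have gb : b₁ ≠ 0 := by have := hV1.2.2.2.1; omega
    have ua : ¬ q ∣ a₁ := by
      intro h
      have := one_le_padicValNat_of_dvd ga h
      omega
    have ub : ¬ q ∣ b₁ := by
      intro h
      have := one_le_padicValNat_of_dvd gb h
      omega
    obtain ⟨a₂, b₂, hV2, h2⟩ := stepB h1 h3 h5 hℓ hV hq hqℓ hM hMq a₁ b₁ hV1 ua ub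
    exact key a₂ b₂ hV2 h2.ne
  · exact key a b hab hv

end AMq
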