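import Mathlib
import Pool.Agent.H87.AQ.Targets

/-!
# Module N7: from a unit and an entry of valuation one to all residues modulo `q ^ e`
-/

namespace AMq

open AMx

namespace N7aux

lemma modEq_iff (n a b : ℕ) : a ≡ b [MOD n] ↔ (a : ZMod n) = (b : ZMod n) :=
  (ZMod.natCast_eq_natCast_iff a b n).symm

end N7aux

open N7aux in
theorem n7 (h1 : T_N1) (h3 : T_N3) (h5 : T_N5) : T_N7 := by
  intro ℓ hℓ V hV q hq hqℓ M hM hMq a b hab hva hqb e i j
  obtain ⟨p1, p2, -, -, p5, p6, p7, -, p9⟩ := h1 q hq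
  have hq2 : 2 ≤ q := hq.two_le
  set n := q ^ (e + 2) with hn
  have hn0 : n ≠ 0 := by positivity
  have : NeZero n := ⟨hn0⟩
  have : Fact q.Prime := ⟨hq⟩
  have hcop : ∀ x : ℕ, ¬ q ∣ x → x.Coprime n := fun x hx =>
    Nat.Coprime.pow_right _ ((Nat.coprime_comm.mp ((Nat.Prime.coprime_iff_not_dvd hq).mpr hx)))
  have hinv : ∀ x : ℕ, ¬ q ∣ x → (x : ZMod n) * (x : ZMod n)⁻¹ = 1 := fun x hx =>
    ZMod.coe_mul_inv_eq_one x (hcop x hx)
  obtain ⟨u, hu1, hu2⟩ := p9 1 i e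
  obtain ⟨w, hw1, hw2⟩ := p9 0 j e
  have hqu : ¬ q ∣ u := by
    intro h
    have h' : u ≡ 0 [MOD q] := (Nat.modEq_zero_iff_dvd).mpr h
    have h2 : 0 ≡ 1 [MOD q] := h'.symm.trans hu1
    have h3 : q ∣ 1 := (Nat.modEq_zero_iff_dvd).mp h2.symm
    have := Nat.le_of_dvd one_pos h3
    omega
  have hqa : q ∣ a := by
    by_contra h
    rw [padicValNat.eq_zero_of_not_dvd h] at hva
    omega
  have ha0 : a ≠ 0 := by
    intro h
    rw [h] at hva
    simp at hva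
  have hdq : q ∣ n := by
    rw [hn]
    exact dvd_pow_self q (by omega)
  set φ : ZMod n →+* ZMod q := ZMod.castHom hdq (ZMod q) with hφ
  have hφn : ∀ x : ℕ, φ (x : ZMod n) = (x : ZMod q) := fun x => map_natCast φ x
  set r : ZMod n := (w : ZMod n) * (u : ZMod n)⁻¹ with hr
  set xi : ZMod n := (a : ZMod n) * (b : ZMod n)⁻¹ with hxi
  have hqnil : IsNilpotent ((q : ℕ) : ZMod n) := by
    refine ⟨e + 2, ?_⟩
    rw [← Nat.cast_pow, ← hn]
    exact ZMod.natCast_self n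
  have hanil : IsNilpotent ((a : ℕ) : ZMod n) := by
    obtain ⟨a', ha'⟩ := hqa
    rw [ha', Nat.cast_mul]
    exact (Commute.all _ _).isNilpotent_mul_right hqnil
  have hxinil : IsNilpotent xi := (Commute.all _ _).isNilpotent_mul_right hanil
  have hφxi : φ xi = 0 := by
    have := hxinil.map φ
    exact this.eq_zero
  have hnil2 : IsNilpotent (r * xi ^ q) := by
    apply (Commute.all _ _).isNilpotent_mul_left
    exact hxinil.pow_of_pos hq.ne_zero
  obtain ⟨U, hU⟩ := hnil2.isUnit_one_sub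
  set C : ZMod n := (1 - (q : ZMod n) ^ 2) * (1 - r * xi) * ((U⁻¹ : (ZMod n)ˣ) : ZMod n) with hC
  have hCU : C * (1 - r * xi ^ q) = (1 - (q : ZMod n) ^ 2) * (1 - r * xi) := by
    rw [hC, ← hU, mul_assoc, Units.inv_mul, mul_one]
  have hφC : φ C = 1 := by
    have h := congrArg φ hCU
    simp only [map_mul, map_sub, map_one, map_pow, hφxi, hφn] at h
    rw [ZMod.natCast_self, zero_pow hq.ne_zero, zero_pow two_ne_zero] at h
    simpa using h
  have hC1 : C.val ≡ 1 [MOD q] := by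
    rw [modEq_iff, ← hφn, ZMod.natCast_zmod_val, hφC, Nat.cast_one]
  obtain ⟨c₀, hc₀, hqc₀, hc₀C⟩ := h5 q hq C.val hC1 (e + 2)
  rw [← hn, modEq_iff, ZMod.natCast_zmod_val, Nat.cast_pow] at hc₀C
  have hc₀q : (c₀ : ZMod n) ^ q = c₀ * C := by
    rw [← hc₀C, ← pow_succ', Nat.sub_add_cancel (by omega)]
  set c : ℕ := ((c₀ : ZMod n) * (b : ZMod n)⁻¹).val with hc
  have hcR : (c : ZMod n) = (c₀ : ZMod n) * (b : ZMod n)⁻¹ := by
    rw [hc, ZMod.natCast_zmod_val]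
  have hcb : ((c * b : ℕ) : ZMod n) = c₀ := by
    rw [Nat.cast_mul, hcR, mul_assoc, mul_comm ((b : ZMod n)⁻¹), hinv b hqb, mul_one]
  have hca : ((c * a : ℕ) : ZMod n) = c₀ * xi := by
    rw [Nat.cast_mul, hcR, hxi]
    ring
  have hqc : ¬ q ∣ c := by
    intro h
    apply hqc₀
    have h1 : φ ((c * b : ℕ) : ZMod n) = 0 := by
      rw [hφn, ZMod.natCast_eq_zero_iff]
      exact Dvd.dvd.mul_right h b
    rw [hcb, hφn, ZMod.natCast_eq_zero_iff] at h1
    exact h1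
  have hc0 : c ≠ 0 := by
    rintro h
    apply hqc
    rw [h]
    exact dvd_zero q
  -- the values of `th`
  have hth : ∀ x : ℕ, (q : ZMod n) * ((th q x : ℕ) : ZMod n)
      = (x : ZMod n) ^ q + ((q : ZMod n) ^ 2 - 1) * x := by
    intro x
    have h := congrArg (fun y : ℕ => (y : ZMod n)) (p1 x)
    simp only [Nat.cast_mul, Nat.cast_add, Nat.cast_pow] at h
    rw [h, Nat.cast_sub (by nlinarith), Nat.cast_pow, Nat.cast_one]
  have hrel : (q : ZMod n) * ((th q (c * b) : ℕ) : ZMod n)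
      = (q : ZMod n) * (r * ((th q (c * a) : ℕ) : ZMod n)) := by
    rw [mul_left_comm, hth, hth, hcb, hca, mul_pow, hc₀q]
    linear_combination (c₀ : ZMod n) * hCU
  have hrel' : th q (c * b) ≡ r.val * th q (c * a) [MOD q ^ (e + 1)] := by
    have h : q * th q (c * b) ≡ q * (r.val * th q (c * a)) [MOD q * q ^ (e + 1)] := by
      have e1 : q * q ^ (e + 1) = n := by
        rw [hn]; ring
      rw [e1, modEq_iff, Nat.cast_mul, Nat.cast_mul, Nat.cast_mul, ZMod.natCast_zmod_val]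
      exact hrel
    exact Nat.ModEq.mul_left_cancel' hq.ne_zero h
  have hthu : ¬ q ∣ th q (c * a) := by
    have hca0 : 0 < c * a := Nat.mul_pos (Nat.pos_of_ne_zero hc0) (Nat.pos_of_ne_zero ha0)
    have h := p7 (c * a) hca0 (Dvd.dvd.mul_left hqa c)
    rw [padicValNat.mul hc0 ha0, hva, padicValNat.eq_zero_of_not_dvd hqc] at h
    have h0 : padicValNat q (th q (c * a)) = 0 := by omega
    have hpos : th q (c * a) ≠ 0 := by
      have := p6 0 (c * a) hca0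
      omega
    intro hd
    have := one_le_padicValNat_of_dvd hpos hd
    omega
  obtain ⟨a₁, b₁, hV1, ha1, hb1⟩ := (h3 ℓ hℓ V hV q hq hqℓ M hM hMq a b hab c (e + 1)).2
  have hqa1 : ¬ q ∣ a₁ := by
    intro h
    apply hthu
    have h2 : a₁ ≡ th q (c * a) [MOD q] := ha1.of_dvd (dvd_pow_self q (by omega))
    exact (Nat.modEq_zero_iff_dvd).mp (h2.symm.trans ((Nat.modEq_zero_iff_dvd).mpr h))
  set c₁ : ℕ := ((u : ZMod n) * (a₁ : ZMod n)⁻¹).val with hc₁
  have hdn : q ^ (e + 1) ∣ n := by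
    rw [hn]
    exact pow_dvd_pow q (by omega)
  have hc1a : c₁ * a₁ ≡ u [MOD q ^ (e + 1)] := by
    have h : c₁ * a₁ ≡ u [MOD n] := by
      rw [modEq_iff, Nat.cast_mul, hc₁, ZMod.natCast_zmod_val, mul_assoc,
        mul_comm ((a₁ : ZMod n)⁻¹), hinv a₁ hqa1, mul_one]
    exact h.of_dvd hdn
  have hru : r.val * u ≡ w [MOD q ^ (e + 1)] := by
    have h : r.val * u ≡ w [MOD n] := by
      rw [modEq_iff, Nat.cast_mul, ZMod.natCast_zmod_val, hr, mul_assoc,
        mul_comm ((u : ZMod n)⁻¹), hinv u hqu, mul_one]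
    exact h.of_dvd hdn
  have hc1b : c₁ * b₁ ≡ w [MOD q ^ (e + 1)] := by
    have h1 : b₁ ≡ r.val * a₁ [MOD q ^ (e + 1)] :=
      hb1.trans (hrel'.trans ((Nat.ModEq.refl _).mul ha1.symm))
    calc c₁ * b₁ ≡ c₁ * (r.val * a₁) [MOD q ^ (e + 1)] := (Nat.ModEq.refl _).mul h1
      _ = r.val * (c₁ * a₁) := by ring
      _ ≡ r.val * u [MOD q ^ (e + 1)] := (Nat.ModEq.refl _).mul hc1a
      _ ≡ w [MOD q ^ (e + 1)] := hru
  obtain ⟨a₂, b₂, hV2, ha2, hb2⟩ := (h3 ℓ hℓ V hV q hq hqℓ M hM hMq a₁ b₁ hV1 c₁ e).2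
  have e2 : q ^ (e + 1) = q * q ^ e := by ring
  refine ⟨a₂, b₂, hV2, ?_, ?_⟩
  · refine ha2.trans ((p2 (q ^ e) _ _ ?_).trans hu2)
    rw [← e2]
    exact hc1a
  · refine hb2.trans ((p2 (q ^ e) _ _ ?_).trans hw2)
    rw [← e2]
    exact hc1b

end AMq
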