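import Mathlib
import Pool.Agent.H87.AQ.Targets

/-!
# Module W2: the defect group of the blocks of the wreath product
-/

open scoped Classical ComplexConjugate

namespace AMq

open AMx

namespace W2aux

lemma pgroup_pi {ι : Type} [Fintype ι] {H : Type} [Group H] (ℓ : ℕ) (D : Subgroup H)
    (hD : IsPGroup ℓ D) : IsPGroup ℓ (pS ι D) := by
  rintro ⟨f, hf⟩
  have hf' : ∀ i, f i ∈ D := fun i => hf i (Set.mem_univ i)
  have h : ∀ i, ∃ n : ℕ, (f i) ^ (ℓ ^ n) = 1 := by
    intro i
    obtain ⟨n, hn⟩ := hD ⟨f i, hf' i⟩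
    exact ⟨n, congrArg Subtype.val hn⟩
  choose n hn using h
  refine ⟨∑ i, n i, ?_⟩
  apply Subtype.ext
  funext i
  change (f i) ^ (ℓ ^ (∑ i, n i)) = 1
  obtain ⟨m, hm⟩ : ∃ m, ∑ i, n i = n i + m :=
    ⟨∑ j ∈ Finset.univ.erase i, n j, (Finset.add_sum_erase _ n (Finset.mem_univ i)).symm⟩
  rw [hm, pow_add, pow_mul, hn, one_pow]

lemma card_pS {ι : Type} [Fintype ι] {H : Type} [Group H] [Fintype H] (D : Subgroup H) :
    Nat.card (pS ι D) = Nat.card D ^ Fintype.card ι := by
  have e : (pS ι D) ≃ (ι → D) :=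
    { toFun := fun f i => ⟨f.1 i, f.2 i (Set.mem_univ i)⟩
      invFun := fun f => ⟨fun i => (f i : H), fun i _ => (f i).2⟩
      left_inv := fun f => rfl
      right_inv := fun f => rfl }
  rw [Nat.card_congr e, Nat.card_pi]
  simp

lemma card_mul_relIndex {H : Type} [Group H] (D C : Subgroup H) (h : D ≤ C) :
    Nat.card D * D.relIndex C = Nat.card C := by
  rw [← Subgroup.relIndex_bot_left, ← Subgroup.relIndex_bot_left,
    Subgroup.relIndex_mul_relIndex _ _ _ bot_le h]

lemma relIndex_pS {ι : Type} [Fintype ι] {H : Type} [Group H] [Fintype H] (D C : Subgroup H)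
    (h : D ≤ C) : (pS ι D).relIndex (pS ι C) = (D.relIndex C) ^ Fintype.card ι := by
  have hle : pS ι D ≤ pS ι C := fun f hf i hi => h (hf i hi)
  have h1 := card_mul_relIndex (pS ι D) (pS ι C) hle
  have h2 := card_mul_relIndex D C h
  rw [card_pS, card_pS, ← h2, mul_pow] at h1
  have h3 : 0 < Nat.card D ^ Fintype.card ι := pow_pos Nat.card_pos _
  exact Nat.eq_of_mul_eq_mul_left h3 h1

section

variable (hL0 : AMx.T_L0) {𝔪 : Ideal (integralClosure ℤ ℂ)} (h𝔪 : 𝔪.IsMaximal)

include hL0 h𝔪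

lemma cong_prod {ι : Type} (s : Finset ι) (f : ι → ℂ) (hf : ∀ i, IsIntegral ℤ (f i))
    (h1 : ¬ Cong 𝔪 1 0) : ¬ Cong 𝔪 (∏ i ∈ s, f i) 0 ↔ ∀ i ∈ s, ¬ Cong 𝔪 (f i) 0 := by
  obtain ⟨-, -, -, -, p5, -, p7, -⟩ := hL0 𝔪 h𝔪
  induction s using Finset.induction_on with
  | empty => simpa using h1
  | insert a s ha ih =>
    rw [Finset.prod_insert ha]
    constructor
    · intro h i hi
      rcases Finset.mem_insert.mp hi with rfl | hi
      · intro hc
        apply h
        have := p5 _ _ (∏ j ∈ s, f j) (IsIntegral.prod _ fun j _ => hf j) hc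
        rwa [mul_zero, mul_comm] at this
      · refine ih.mp ?_ i hi
        intro hc
        apply h
        have := p5 _ _ (f a) (hf a) hc
        rwa [mul_zero] at this
    · intro h hc
      rcases p7 _ _ (hf a) (IsIntegral.prod _ fun j _ => hf j) hc with h2 | h2
      · exact h a (Finset.mem_insert_self a s) h2
      · exact ih.mpr (fun i hi => h i (Finset.mem_insert_of_mem hi)) h2

end

section

variable {q : ℕ} [Fact q.Prime] {X K : Type} [Group X] [Fintype X] [Group K] [Fintype K]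
  (F : Cy q X K)

/-- indicator function of a class -/
lemma cf_ind (x : X) : CF (fun y : X => if IsConj x y then (1 : ℂ) else 0) := by
  intro g y
  have : IsConj x (g * y * g⁻¹) ↔ IsConj x y :=
    ⟨fun h => h.trans (isConj_iff.mpr ⟨g⁻¹, by group⟩),
      fun h => h.trans (isConj_iff.mpr ⟨g, rfl⟩)⟩
  simp only [this]

/-- the central character of an induced character -/
lemma cen_ind (hQ1 : T_Q1) (θ : K → ℂ) (x : X) :
    cen (MonoidHom.id X) (F.ind θ) x
      = (∑ k : K, (if IsConj x (F.io k) then (1 : ℂ) else 0) * θ k) / θ 1 := by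
  obtain ⟨-, -, -, -, -, p6, -, -, p9, -⟩ := hQ1 q X K F
  have hq : (q : ℂ) ≠ 0 := by
    exact_mod_cast (Fact.out : q.Prime).ne_zero
  have h := p9 _ (cf_ind x) θ
  unfold cen
  rw [p6]
  refine Eq.trans ?_ (mul_div_mul_left _ _ hq)
  rw [← h]
  congr 1
  refine Finset.sum_congr rfl fun y _ => ?_
  simp only [MonoidHom.id_apply]
  split_ifs <;> simp

end

end W2aux

open W2aux in
theorem w2 (hC1 : AMx.T_C1) (hL0 : AMx.T_L0) (hL2 : AMx.T_L2) (hQ1 : T_Q1) (hV1 : T_V1)
    (hV2 : T_V2) : T_W2 := by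
  intro ℓ _ 𝔪 h𝔪 hℓ𝔪 q _ hqℓ X H _ _ _ _ F hWr χ hχ D hD τ₀ hτ₀ hninv
  obtain ⟨c1, c2, c3, c4, c5, c6, c7, c8⟩ := hL0 𝔪 h𝔪
  have hone : ¬ Cong 𝔪 1 0 := by
    intro h
    have h2 : Cong 𝔪 ((1 : ℕ) : ℂ) 0 := by simpa using h
    rw [c8 ℓ hℓ𝔪 1] at h2
    exact (Fact.out : ℓ.Prime).one_lt.ne' (Nat.dvd_one.mp h2)
  have hirr : pw τ₀ ∈ Irr (ZMod q → H) := (hV1 (ZMod q) H).1 τ₀ fun i => (hτ₀ i).1
  obtain ⟨hI, -, hint, hcint⟩ := hC1 _ _ hirr
  have hcenpw : ∀ f : ZMod q → H, cen (MonoidHom.id (ZMod q → H)) (pw τ₀) f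
      = ∏ i, cen (MonoidHom.id H) (τ₀ i) (f i) := (hV2 𝔪 h𝔪 (ZMod q) H).1 τ₀
  have hcτ : ∀ i x, IsIntegral ℤ (cen (MonoidHom.id H) (τ₀ i) x) :=
    fun i => (hC1 _ _ (hτ₀ i).1).2.2.2
  -- the central character of `pw τ₀` and that of `χ`
  have hpwne : ∀ f : ZMod q → H, ¬ Cong 𝔪 (cen (MonoidHom.id (ZMod q → H)) (pw τ₀) f) 0 ↔
      ∀ i, ¬ Cong 𝔪 (cen (MonoidHom.id H) χ (f i)) 0 := by
    intro f
    rw [hcenpw, cong_prod hL0 h𝔪 _ _ (fun i => hcτ i (f i)) hone]
    constructor
    · intro h i hc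
      exact h i (Finset.mem_univ i) (c3 _ _ _ (c2 _ _ ((hτ₀ i).2 (f i))) hc)
    · intro h i _ hc
      exact h i (c3 _ _ _ ((hτ₀ i).2 (f i)) hc)
  obtain ⟨hDp, ⟨x₀, hx₀, hDx, hDi⟩, hDm⟩ := hD
  have hrange : ∀ x, F.p x = 1 ↔ ∃ k, F.io k = x := F.ker
  refine ⟨(pgroup_pi ℓ D hDp).map F.io, ?_, ?_⟩
  · -- the element `x`
    set k₀ : ZMod q → H := fun _ => x₀ with hk₀
    have hsgk : ∀ c : ℕ, (F.sg ^ c) k₀ = k₀ := by
      intro c
      induction c with
      | zero => rfl
      | succ c ih =>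
        rw [pow_succ', MulAut.mul_apply, ih]
        funext i
        rw [hWr]
    have hspow : ∀ (c : ℕ) (k : ZMod q → H), F.s ^ c * F.io k * (F.s ^ c)⁻¹
        = F.io ((F.sg ^ c) k) := by
      intro c k
      induction c with
      | zero => simp
      | succ c ih =>
        rw [pow_succ' F.sg, MulAut.mul_apply, ← F.cj, ← ih, pow_succ']
        group
    have hconj : ∀ k : ZMod q → H, IsConj (F.io k₀) (F.io k) ↔ IsConj k₀ k := by
      intro k
      constructor
      · intro h
        obtain ⟨w, hw⟩ := isConj_iff.mp h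
        obtain ⟨c, -, k', rfl⟩ := (hQ1 q X (ZMod q → H) F).2.1 w
        have e : F.s ^ c * F.io k' * F.io k₀ * (F.s ^ c * F.io k')⁻¹
            = F.io ((F.sg ^ c) (k' * k₀ * k'⁻¹)) := by
          rw [← hspow, map_mul, map_mul, map_inv]
          group
        rw [e] at hw
        have hw' := F.inj hw
        rw [map_mul, map_mul, hsgk, map_inv] at hw'
        exact isConj_iff.mpr ⟨(F.sg ^ c) k', hw'⟩
      · intro h
        obtain ⟨w, hw⟩ := isConj_iff.mp h
        refine isConj_iff.mpr ⟨F.io w, ?_⟩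
        rw [← hw, map_mul, map_mul, map_inv]
    refine ⟨F.io k₀, ?_, ?_, ?_⟩
    · have e : cen (MonoidHom.id X) (F.ind (pw τ₀)) (F.io k₀)
          = cen (MonoidHom.id (ZMod q → H)) (pw τ₀) k₀ := by
        rw [cen_ind F hQ1]
        unfold cen
        congr 1
        refine Finset.sum_congr rfl fun k _ => ?_
        simp only [MonoidHom.id_apply, hconj]
        split_ifs <;> simp
      rw [e, hpwne]
      intro i
      exact hx₀
    · rintro _ ⟨f, hf, rfl⟩
      rw [Subgroup.mem_centralizer_singleton_iff, ← map_mul, ← map_mul]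
      congr 1
      funext i
      exact Subgroup.mem_centralizer_singleton_iff.mp (hDx (hf i (Set.mem_univ i)))
    · -- the index
      set C := Subgroup.centralizer ({F.io k₀} : Set X) with hC
      set C₁ := (pS (ZMod q) (Subgroup.centralizer ({x₀} : Set H))).map F.io with hC₁
      have hC₁C : C₁ = F.p.ker ⊓ C := by
        ext y
        constructor
        · rintro ⟨f, hf, rfl⟩
          refine ⟨(MonoidHom.mem_ker).mpr ((hrange _).mpr ⟨f, rfl⟩), ?_⟩
          change F.io f ∈ C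
          rw [hC, Subgroup.mem_centralizer_singleton_iff, ← map_mul, ← map_mul]
          congr 1
          funext i
          exact Subgroup.mem_centralizer_singleton_iff.mp (hf i (Set.mem_univ i))
        · rintro ⟨hy1, hy2⟩
          obtain ⟨f, rfl⟩ := (hrange _).mp ((MonoidHom.mem_ker).mp hy1)
          refine ⟨f, ?_, rfl⟩
          intro i _
          have hy3 : F.io f ∈ C := hy2
          rw [hC, Subgroup.mem_centralizer_singleton_iff, ← map_mul, ← map_mul] at hy3
          have hy4 := F.inj hy3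
          exact Subgroup.mem_centralizer_singleton_iff.mpr (congrFun hy4 i)
      have hle1 : (pS (ZMod q) D).map F.io ≤ C₁ := by
        apply Subgroup.map_mono
        intro f hf i hi
        exact hDx (hf i hi)
      have hle2 : C₁ ≤ C := by
        rw [hC₁C]
        exact inf_le_right
      rw [← Subgroup.relIndex_mul_relIndex _ _ _ hle1 hle2]
      intro hdvd
      rcases (Fact.out : ℓ.Prime).dvd_mul.mp hdvd with h | h
      · rw [hC₁, Subgroup.relIndex_map_map_of_injective _ _ F.inj, relIndex_pS _ _ hDx] at h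
        exact hDi ((Fact.out : ℓ.Prime).dvd_of_dvd_pow h)
      · rw [hC₁C, Subgroup.inf_relIndex_right, Subgroup.relIndex_ker] at h
        have h2 : Nat.card (C.map F.p) ∣ q := by
          have := Subgroup.card_subgroup_dvd_card (C.map F.p)
          rwa [Nat.card_congr Multiplicative.toAdd, Nat.card_zmod] at this
        have h3 := h.trans h2
        exact hqℓ ((Nat.prime_dvd_prime_iff_eq (Fact.out : ℓ.Prime)
          (Fact.out : q.Prime)).mp h3).symm
  · intro x hx
    rw [cen_ind F hQ1] at hx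
    obtain ⟨k, hk1, hk2⟩ := hL2 𝔪 (ZMod q → H) (pw τ₀) hI.cf hcint
      (fun k => if IsConj x (F.io k) then (1 : ℂ) else 0) (by
        intro g k
        have h := cf_ind x (F.io g) (F.io k)
        simp only [← map_inv, ← map_mul] at h
        exact h) (by
        intro k
        split_ifs
        · exact isIntegral_one
        · exact isIntegral_zero) hx
    have hconj : IsConj x (F.io k) := by
      by_contra h
      apply hk1
      rw [if_neg h]
      exact c1 0
    rw [hpwne] at hk2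
    choose u hu using fun i => hDm (k i) (hk2 i)
    obtain ⟨w, hw⟩ := isConj_iff.mp hconj
    refine ⟨w⁻¹ * F.io u, ?_⟩
    rintro _ ⟨f, hf, rfl⟩
    rw [Subgroup.mem_centralizer_singleton_iff]
    have h1 : (u * f * u⁻¹) * k = k * (u * f * u⁻¹) := by
      funext i
      exact Subgroup.mem_centralizer_singleton_iff.mp (hu i (f i) (hf i (Set.mem_univ i)))
    have h2 := congrArg F.io h1
    simp only [map_mul, map_inv] at h2
    have hx' : x = w⁻¹ * F.io k * w := by
      rw [← hw]; group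
    have e1 : w⁻¹ * F.io u * F.io f * (w⁻¹ * F.io u)⁻¹ * x
        = w⁻¹ * (F.io u * F.io f * (F.io u)⁻¹ * F.io k) * w := by
      rw [hx']; group
    have e2 : x * (w⁻¹ * F.io u * F.io f * (w⁻¹ * F.io u)⁻¹)
        = w⁻¹ * (F.io k * (F.io u * F.io f * (F.io u)⁻¹)) * w := by
      rw [hx']; group
    rw [e1, e2, h2]

end AMq
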